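import Mathlib
import Pool.Agent.Results.MP_577a3c_an.RoughOsc

/-!
# Oscillation of rough singular integrals: failure for every finite exponent

For every `d ≥ 2` one bounded mean-zero `Ω` on the sphere of `ℝ^d` violates the oscillation
inequality for all exponents `1 ≤ r < ∞` simultaneously. The construction is that of the starting
result `RoughOsc` (which gives `1 ≤ r < 2`) with new sectors: the slope `s` lies in the sector
number `j` when `1 / (10 + log (j + 1)) < s < 1 / (10 + log j)`, and `Ω` oscillates there with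
frequency `2^j`. The masses of the sectors are now about `1 / (j (log j)^2)` instead of `1 / j^2`,
so that the series of `mass^(1 - 1/r)` diverges for every finite `r`.
-/

set_option autoImplicit false
set_option linter.unusedSimpArgs false

open MeasureTheory Metric Set Filter Topology
open scoped ENNReal NNReal Pointwise

namespace Pool.Agent.Results.MP_577a3c_an.AllFiniteExponents

open Pool.Agent.Results.MP_577a3c_an.RoughOsc (truncRough roughSI farPart oscFar maxAvg sqw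
  sqw_meas coord_meas div_meas sqw_abs sphere_neg coord_le)

noncomputable section

/-- The number of the sector which contains the slope `s`: the sectors are
`1 / (10 + log (j + 1)) < s < 1 / (10 + log j)`. -/
def idx (s : ℝ) : ℕ := ⌊Real.exp (1 / s - 10)⌋₊

def slopeFn (s : ℝ) : ℝ := sqw ((2 : ℝ) ^ idx s * s)

def Om {k : ℕ} (w : EuclideanSpace ℝ (Fin (k+2))) : ℝ :=
  if 0 < w 0 then slopeFn (w 1 / w 0) else if w 0 < 0 then -slopeFn (w 1 / w 0) else 0

lemma slopeFn_meas : Measurable slopeFn := by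
  unfold slopeFn
  refine sqw_meas.comp ?_
  refine Measurable.mul ?_ measurable_id
  have h1 : Measurable (fun n : ℕ => (2:ℝ)^n) := measurable_from_top
  exact h1.comp (Nat.measurable_floor.comp (Real.measurable_exp.comp
    ((measurable_const.div measurable_id).sub measurable_const)))

lemma Om_meas {k : ℕ} : Measurable (Om (k := k)) := by
  unfold Om
  refine Measurable.ite (measurableSet_lt measurable_const (coord_meas 0)) ?_ ?_
  · exact slopeFn_meas.comp div_meas
  · refine Measurable.ite (measurableSet_lt (coord_meas 0) measurable_const) ?_ measurable_const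
    exact (slopeFn_meas.comp div_meas).neg

lemma Om_abs {k : ℕ} (w : EuclideanSpace ℝ (Fin (k+2))) : |Om w| ≤ 1 := by
  unfold Om slopeFn
  split_ifs <;> simp [sqw_abs]

lemma Om_neg {k : ℕ} (w : EuclideanSpace ℝ (Fin (k+2))) : Om (-w) = - Om w := by
  unfold Om
  simp only [PiLp.neg_apply, neg_div_neg_eq]
  rcases lt_trichotomy (w 0) 0 with h | h | h
  · have h' : ¬ (0 < w 0) := by linarith
    have h1 : 0 < - w 0 := by linarith
    rw [if_pos h1, if_neg h', if_pos h, neg_neg]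
  · simp [h]
  · have h' : ¬ (w 0 < 0) := by linarith
    have h1 : ¬ 0 < - w 0 := by linarith
    have h2 : - w 0 < 0 := by linarith
    simp [h, h', h1, h2]

lemma Om_smul {k : ℕ} (w : EuclideanSpace ℝ (Fin (k+2))) {t : ℝ} (ht : 0 < t) : Om (t • w) = Om w := by
  unfold Om
  simp only [PiLp.smul_apply, smul_eq_mul, mul_div_mul_left _ _ ht.ne']
  have h1 : (0 < t * w 0) ↔ (0 < w 0) := mul_pos_iff_of_pos_left ht
  have h2 : (t * w 0 < 0) ↔ (w 0 < 0) := by
    constructor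
    · intro h; by_contra h'; push Not at h'; nlinarith
    · intro h; nlinarith
  simp only [h1, h2]

lemma Om_mean {k : ℕ} :
    ∫ w : sphere (0 : EuclideanSpace ℝ (Fin (k+2))) 1, Om (w : EuclideanSpace ℝ (Fin (k+2)))
      ∂(volume : Measure (EuclideanSpace ℝ (Fin (k+2)))).toSphere = 0 := by
  have h := (sphere_neg (k := k)).integral_comp
    (Homeomorph.neg (sphere (0 : EuclideanSpace ℝ (Fin (k+2))) 1)).measurableEmbedding
    (fun w => Om (w : EuclideanSpace ℝ (Fin (k+2))))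
  have h2 : (fun w : sphere (0 : EuclideanSpace ℝ (Fin (k+2))) 1 => Om ((-w : sphere (0 : EuclideanSpace ℝ (Fin (k+2))) 1) : EuclideanSpace ℝ (Fin (k+2))))
     = fun w : sphere (0 : EuclideanSpace ℝ (Fin (k+2))) 1 => - Om (w : EuclideanSpace ℝ (Fin (k+2))) := by
    ext w
    rw [← Om_neg]; rfl
  rw [h2, integral_neg] at h
  linarith

/-- The lower end of the `j`-th sector. -/
def lo (j : ℕ) : ℝ := 1 / (10 + Real.log ((j : ℝ) + 1))
/-- The upper end of the `j`-th sector. -/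
def hi (j : ℕ) : ℝ := 1 / (10 + Real.log (j : ℝ))

lemma log_nn (j : ℕ) : 0 ≤ Real.log ((j : ℝ) + 1) := Real.log_nonneg (by
  have : (0 : ℝ) ≤ j := by positivity
  linarith)

lemma log_nn' {j : ℕ} (hj : 10 ≤ j) : 0 ≤ Real.log (j : ℝ) := Real.log_nonneg (by
  have : (10 : ℝ) ≤ j := by exact_mod_cast hj
  linarith)

lemma lo_pos (j : ℕ) : 0 < lo j := by
  have := log_nn j
  unfold lo; positivity

lemma hi_le {j : ℕ} (hj : 10 ≤ j) : hi j ≤ 1 / 10 :=
  one_div_le_one_div_of_le (by norm_num) (by linarith [log_nn' hj])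

def good (j : ℕ) (u : ℝ) : Prop :=
  lo j + 1 / 2 ^ j < u ∧ u < hi j - 1 / 2 ^ j ∧
    Int.fract (2 ^ j * u) < 1 / 64

lemma floor_val {j : ℕ} (hj : 20 ≤ j) {u s : ℝ} (hu : good j u) (hs : |s - u| ≤ (1/6)/2^j) :
    idx s = j := by
  obtain ⟨h1, h2, h3⟩ := hu
  have hj0 : (0:ℝ) < j := by positivity
  have hp : (0:ℝ) < 1 / 2 ^ j := by positivity
  have h6 : (1/6 : ℝ)/2^j = (1/6) * (1 / 2^j) := by ring
  rw [h6] at hs
  rw [abs_le] at hs
  have hs1 : lo j < s := by nlinarith [hs.1]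
  have hs2 : s < hi j := by nlinarith [hs.2]
  have hs0 : 0 < s := lt_trans (lo_pos j) hs1
  have hl0 := log_nn' (show 10 ≤ j by omega)
  have hl1 := log_nn j
  unfold idx
  rw [Nat.floor_eq_iff (Real.exp_pos _).le]
  constructor
  · rw [← Real.log_le_iff_le_exp hj0]
    unfold hi at hs2
    rw [lt_div_iff₀ (by positivity)] at hs2
    have : 10 + Real.log j ≤ 1 / s := by
      rw [le_div_iff₀ hs0]; linarith
    linarith
  · rw [← Real.lt_log_iff_exp_lt (by positivity)]
    unfold lo at hs1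
    rw [div_lt_iff₀ (by positivity)] at hs1
    have : 1 / s < 10 + Real.log ((j : ℝ) + 1) := by
      rw [div_lt_iff₀ hs0]; linarith
    linarith

lemma slope_pos {j : ℕ} (hj : 20 ≤ j) {u s : ℝ} (hu : good j u) (h1 : (1/50)/2^j ≤ s - u)
    (h2 : s - u ≤ (1/6)/2^j) : slopeFn s = 1 := by
  have hp : (0:ℝ) < 2 ^ j := by positivity
  have h0 : (0:ℝ) < (1/50)/2^j := by positivity
  have hfl := floor_val hj hu (s := s) (by rw [abs_le]; constructor <;> linarith)
  unfold slopeFn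
  rw [hfl]
  have e1 : (1/50 : ℝ) ≤ 2^j * (s - u) := by
    rw [div_le_iff₀ hp] at h1; linarith
  have e2 : 2^j * (s - u) ≤ (1/6 : ℝ) := by
    rw [le_div_iff₀ hp] at h2; linarith
  obtain ⟨-, -, h3⟩ := hu
  have h4 := Int.fract_nonneg (2 ^ j * u)
  have : Int.fract (2 ^ j * s) = Int.fract (2 ^ j * u) + 2^j * (s - u) := by
    rw [Int.fract_eq_iff]
    refine ⟨by linarith, by linarith, ⌊2 ^ j * u⌋, ?_⟩
    have := Int.floor_add_fract (2 ^ j * u)
    linarith
  unfold sqw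
  rw [if_pos]
  rw [this]; linarith

lemma slope_neg {j : ℕ} (hj : 20 ≤ j) {u s : ℝ} (hu : good j u) (h1 : (1/50)/2^j ≤ u - s)
    (h2 : u - s ≤ (1/6)/2^j) : slopeFn s = -1 := by
  have hp : (0:ℝ) < 2 ^ j := by positivity
  have h0 : (0:ℝ) < (1/50)/2^j := by positivity
  have hfl := floor_val hj hu (s := s) (by rw [abs_le]; constructor <;> linarith)
  unfold slopeFn
  rw [hfl]
  have e1 : (1/50 : ℝ) ≤ 2^j * (u - s) := by
    rw [div_le_iff₀ hp] at h1; linarith
  have e2 : 2^j * (u - s) ≤ (1/6 : ℝ) := by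
    rw [le_div_iff₀ hp] at h2; linarith
  obtain ⟨-, -, h3⟩ := hu
  have h4 := Int.fract_nonneg (2 ^ j * u)
  have : Int.fract (2 ^ j * s) = Int.fract (2 ^ j * u) - 2^j * (u - s) + 1 := by
    rw [Int.fract_eq_iff]
    refine ⟨by linarith, by linarith, ⌊2 ^ j * u⌋ - 1, ?_⟩
    have := Int.floor_add_fract (2 ^ j * u)
    push_cast
    linarith
  unfold sqw
  rw [if_neg]
  rw [this]; linarith

/-- the j-th region -/
def G (k j : ℕ) : Set (EuclideanSpace ℝ (Fin (k+2))) :=
  {y | 8 * 2 ^ j ≤ - y 0 ∧ - y 0 < 16 * 2 ^ j ∧ good j (y 1 / y 0) ∧ ∀ i, |y i| ≤ - y 0}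

lemma good_bound {j : ℕ} (hj : 20 ≤ j) {u : ℝ} (hu : good j u) : 0 < u ∧ u < 1 / 10 := by
  obtain ⟨h1, h2, -⟩ := hu
  have hp : (0:ℝ) < 1 / 2 ^ j := by positivity
  have h3 := hi_le (show 10 ≤ j by omega)
  have h4 := lo_pos j
  constructor <;> linarith

lemma shift_bounds {j : ℕ} (hj : 20 ≤ j) {x0 x1 y0 y1 : ℝ} (h0 : |x0| < 1) (h1 : |x1| < 1)
    (hy : 8 * 2 ^ j ≤ - y0) (hy' : - y0 < 16 * 2 ^ j) (hu : good j (y1 / y0)) :
    0 < x0 - y0 ∧
    (1/2 < x1 → (1/50)/2^j ≤ (x1 - y1) / (x0 - y0) - y1 / y0 ∧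
       (x1 - y1) / (x0 - y0) - y1 / y0 ≤ (1/6)/2^j) ∧
    (x1 < -(1/2) → (1/50)/2^j ≤ y1 / y0 - (x1 - y1) / (x0 - y0) ∧
       y1 / y0 - (x1 - y1) / (x0 - y0) ≤ (1/6)/2^j) := by
  have hb := good_bound hj hu
  set u := y1 / y0 with hudef
  have h2 : (1024:ℝ) ≤ 2^j := by
    calc (1024:ℝ) = 2^10 := by norm_num
      _ ≤ 2^j := pow_le_pow_right₀ (by norm_num) (by omega)
  set P : ℝ := 2^j with hP
  have hy0 : y0 < 0 := by linarith
  have hy1 : y1 = u * y0 := by rw [hudef, div_mul_cancel₀ _ hy0.ne]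
  rw [abs_lt] at h0 h1
  have hz : 0 < x0 - y0 := by linarith
  have key : (x1 - y1) / (x0 - y0) - u = (x1 - x0 * u) / (x0 - y0) := by
    rw [hy1]; field_simp; ring
  have key' : u - (x1 - y1) / (x0 - y0) = (- x1 + x0 * u) / (x0 - y0) := by
    rw [hy1]; field_simp; ring
  have hxu : |x0 * u| ≤ 1/10 := by
    rw [abs_mul]
    have : |x0| ≤ 1 := by rw [abs_le]; constructor <;> linarith
    have h3 : |u| ≤ 1/10 := by rw [abs_of_pos hb.1]; linarith
    calc |x0| * |u| ≤ 1 * (1/10) := mul_le_mul this h3 (abs_nonneg _) (by norm_num)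
      _ = 1/10 := by norm_num
  rw [abs_le] at hxu
  have hPpos : 0 < P := by linarith
  refine ⟨hz, ?_, ?_⟩
  · intro hx
    rw [key]
    constructor
    · rw [div_le_div_iff₀ hPpos hz]
      nlinarith
    · rw [div_le_div_iff₀ hz hPpos]
      nlinarith
  · intro hx
    rw [key']
    constructor
    · rw [div_le_div_iff₀ hPpos hz]
      nlinarith
    · rw [div_le_div_iff₀ hz hPpos]
      nlinarith

lemma om_pos {k j : ℕ} (hj : 20 ≤ j) {x y : EuclideanSpace ℝ (Fin (k+2))} (hx : ‖x‖ < 1)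
    (hy : y ∈ G k j) (h : 1 / 2 < x 1) : Om (x - y) = 1 := by
  obtain ⟨h1, h2, h3, h4⟩ := hy
  have hb := shift_bounds hj ((coord_le x 0).trans_lt hx) ((coord_le x 1).trans_lt hx) h1 h2 h3
  have hz : 0 < (x - y) 0 := by
    have := hb.1
    simpa only [PiLp.sub_apply] using this
  have e : (x - y) 1 / (x - y) 0 = (x 1 - y 1) / (x 0 - y 0) := by simp only [PiLp.sub_apply]
  unfold Om
  rw [if_pos hz, e]
  exact slope_pos hj h3 (hb.2.1 h).1 (hb.2.1 h).2

lemma om_neg {k j : ℕ} (hj : 20 ≤ j) {x y : EuclideanSpace ℝ (Fin (k+2))} (hx : ‖x‖ < 1)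
    (hy : y ∈ G k j) (h : x 1 < -(1 / 2)) : Om (x - y) = -1 := by
  obtain ⟨h1, h2, h3, h4⟩ := hy
  have hb := shift_bounds hj ((coord_le x 0).trans_lt hx) ((coord_le x 1).trans_lt hx) h1 h2 h3
  have hz : 0 < (x - y) 0 := by
    have := hb.1
    simpa only [PiLp.sub_apply] using this
  have e : (x - y) 1 / (x - y) 0 = (x 1 - y 1) / (x 0 - y 0) := by simp only [PiLp.sub_apply]
  unfold Om
  rw [if_pos hz, e]
  exact slope_neg hj h3 (hb.2.2 h).1 (hb.2.2 h).2

lemma pow_bound {j : ℕ} (hj : 20 ≤ j) : 6 * (j + 1) * (j + 10) ^ 2 ≤ 2 ^ j := by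
  induction j, hj using Nat.le_induction with
  | base => norm_num
  | succ n hn ih =>
    have e : 2 ^ (n + 1) = 2 * 2 ^ n := pow_succ' 2 n
    rw [e]
    have h1 : 6 * (n + 1 + 1) * (n + 1 + 10) ^ 2 ≤ 2 * (6 * (n + 1) * (n + 10) ^ 2) := by
      obtain ⟨m, rfl⟩ := Nat.exists_eq_add_of_le hn
      nlinarith [Nat.zero_le (m ^ 3), Nat.zero_le (m ^ 2), Nat.zero_le m]
    omega

/-- The number of shifts. -/
def nn (j : ℕ) : ℕ := ⌈2 * ((j : ℝ) + 1) * (10 + Real.log ((j : ℝ) + 1)) ^ 2⌉₊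

def wid (j : ℕ) : ℝ := hi j - lo j - 3 / 2 ^ j

def tau (j a b : ℕ) : ℝ := lo j + 2 / 2 ^ j - a * wid j - (b / 64) / 2 ^ j

lemma gap {j : ℕ} (hj : 20 ≤ j) :
    1 / (((j : ℝ) + 1) * (10 + Real.log ((j : ℝ) + 1)) ^ 2) ≤ hi j - lo j := by
  have hj0 : (20:ℝ) ≤ j := by exact_mod_cast hj
  have hl0 := log_nn' (show 10 ≤ j by omega)
  have hl1 := log_nn j
  have hle : Real.log (j : ℝ) ≤ Real.log ((j : ℝ) + 1) :=
    Real.log_le_log (by linarith) (by linarith)
  have hd : 1 / ((j : ℝ) + 1) ≤ Real.log ((j : ℝ) + 1) - Real.log j := by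
    rw [← Real.log_div (by positivity) (by positivity)]
    have h := Real.one_sub_inv_le_log_of_pos (show 0 < ((j : ℝ) + 1) / j by positivity)
    refine le_trans (le_of_eq ?_) h
    field_simp
    ring
  set L0 := Real.log (j : ℝ)
  set L1 := Real.log ((j : ℝ) + 1)
  have e : hi j - lo j = (L1 - L0) / ((10 + L0) * (10 + L1)) := by
    show 1 / (10 + L0) - 1 / (10 + L1) = _
    field_simp
    ring
  rw [e, ← div_div]
  apply div_le_div₀ (by linarith [div_nonneg zero_le_one (show (0:ℝ) ≤ (j:ℝ) + 1 by positivity)]) hd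
    (by positivity)
  rw [pow_two]
  exact mul_le_mul_of_nonneg_right (by linarith) (by positivity)

lemma wid_bound {j : ℕ} (hj : 20 ≤ j) : 1 ≤ wid j * (nn j : ℝ) := by
  have hj0 : (20:ℝ) ≤ j := by exact_mod_cast hj
  have h := pow_bound hj
  have h' : (6:ℝ) * (j + 1) * (j + 10) ^ 2 ≤ 2 ^ j := by exact_mod_cast h
  have hp : (0:ℝ) < 2 ^ j := by positivity
  have hl1 := log_nn j
  have hlj : Real.log ((j : ℝ) + 1) ≤ j := by
    have := Real.log_le_sub_one_of_pos (show (0:ℝ) < (j : ℝ) + 1 by positivity)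
    linarith
  have hg := gap hj
  set L1 := Real.log ((j : ℝ) + 1)
  set K : ℝ := ((j : ℝ) + 1) * (10 + L1) ^ 2 with hK
  have hK0 : 0 < K := by positivity
  have hKj : 6 * K ≤ 2 ^ j := by
    refine le_trans ?_ h'
    rw [hK]
    have : (10 + L1) ^ 2 ≤ ((j : ℝ) + 10) ^ 2 := pow_le_pow_left₀ (by positivity) (by linarith) 2
    nlinarith
  have h3 : 3 / (2:ℝ) ^ j ≤ 1 / (2 * K) := by
    rw [div_le_div_iff₀ hp (by positivity)]
    linarith
  have hw : 1 / (2 * K) ≤ wid j := by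
    unfold wid
    have : 1 / K = 1 / (2 * K) + 1 / (2 * K) := by field_simp; norm_num
    linarith
  have hn : 2 * K ≤ (nn j : ℝ) := by
    refine le_trans (le_of_eq ?_) (Nat.le_ceil _)
    rw [hK]; ring
  calc (1:ℝ) = 1 / (2 * K) * (2 * K) := by field_simp
    _ ≤ wid j * (nn j : ℝ) := mul_le_mul hw hn (by positivity) (by linarith [show (0:ℝ) < 1 / (2 * K) by positivity])

lemma exists_shift {j : ℕ} (hj : 20 ≤ j) {v : ℝ} (h0 : 0 < v) (h1 : v < 1) :
    ∃ q ∈ Finset.range (nn j) ×ˢ Finset.range 64, good j (v + tau j q.1 q.2) := by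
  have hw := wid_bound hj
  have hj0 : (0:ℝ) < j := by positivity
  have hp : (0:ℝ) < 2 ^ j := by positivity
  have hwpos : 0 < wid j := by
    by_contra hcon
    push Not at hcon
    have : wid j * (nn j : ℝ) ≤ 0 := mul_nonpos_of_nonpos_of_nonneg hcon (by positivity)
    linarith
  set a := ⌊v / wid j⌋₊ with ha
  have ha1 : (a:ℝ) * wid j ≤ v := by
    rw [← le_div_iff₀ hwpos]; exact Nat.floor_le (by positivity)
  have ha2 : v < (a + 1) * wid j := by
    rw [← div_lt_iff₀ hwpos]; exact Nat.lt_floor_add_one _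
  have ha3 : a < nn j := by
    rw [ha, Nat.floor_lt (by positivity), div_lt_iff₀ hwpos]
    linarith
  set v2 := v + lo j + 2 / 2 ^ j - a * wid j with hv2
  set φ := Int.fract (2 ^ j * v2) with hφ
  have hφ0 : 0 ≤ φ := Int.fract_nonneg _
  have hφ1 : φ < 1 := Int.fract_lt_one _
  set b := ⌊64 * φ⌋₊ with hb
  have hb1 : (b:ℝ) ≤ 64 * φ := Nat.floor_le (by positivity)
  have hb2 : 64 * φ < b + 1 := Nat.lt_floor_add_one _
  have hb3 : b < 64 := by
    rw [hb, Nat.floor_lt (by positivity)]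
    norm_num; linarith
  refine ⟨(a, b), by simp [ha3, hb3], ?_⟩
  have hb0 : (0:ℝ) ≤ b := by positivity
  have hb63 : (b:ℝ) / 64 < 1 := by
    rw [div_lt_one (by norm_num)]; exact_mod_cast hb3
  have e : v + tau j a b = v2 - (b / 64) / 2 ^ j := by
    unfold tau; rw [hv2]; ring
  have hsm : ((b:ℝ) / 64) / 2 ^ j < 1 / 2 ^ j := by
    rw [div_lt_div_iff_of_pos_right hp]; exact hb63
  have hsm0 : 0 ≤ ((b:ℝ) / 64) / 2 ^ j := by positivity
  have h21 : (2:ℝ) / 2 ^ j = 2 * (1 / 2^j) := by ring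
  have h31 : (3:ℝ) / 2 ^ j = 3 * (1 / 2^j) := by ring
  show good j (v + tau j a b)
  rw [e]
  refine ⟨?_, ?_, ?_⟩
  · rw [hv2, h21]; linarith
  · rw [hv2, h21]
    have : v - a * wid j < wid j := by linarith
    unfold wid at this ⊢
    rw [h31] at this ⊢
    linarith
  · have : Int.fract (2 ^ j * (v2 - (b / 64) / 2 ^ j)) = φ - b / 64 := by
      rw [Int.fract_eq_iff]
      refine ⟨by linarith, by linarith, ⌊2 ^ j * v2⌋, ?_⟩
      have h5 := Int.floor_add_fract (2 ^ j * v2)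
      have h6 : (2:ℝ) ^ j * (v2 - (b / 64) / 2 ^ j) = 2 ^ j * v2 - b / 64 := by
        field_simp
      rw [h6]
      linarith
    rw [this]
    linarith

lemma G_meas (k j : ℕ) : MeasurableSet (G k j) := by
  have h1 : MeasurableSet {y : EuclideanSpace ℝ (Fin (k+2)) | (8:ℝ) * 2 ^ j ≤ - y 0} :=
    measurableSet_le measurable_const (by fun_prop)
  have h2 : MeasurableSet {y : EuclideanSpace ℝ (Fin (k+2)) | - y 0 < (16:ℝ) * 2 ^ j} :=
    measurableSet_lt (by fun_prop) measurable_const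
  have hq : Measurable (fun y : EuclideanSpace ℝ (Fin (k+2)) => (y 1 : ℝ) / (y 0 : ℝ)) := by
    fun_prop
  have hg : MeasurableSet {u : ℝ | good j u} := by
    have e : {u : ℝ | good j u} = {u : ℝ | lo j + 1 / 2 ^ j < u} ∩
        ({u : ℝ | u < hi j - 1 / 2 ^ j} ∩ {u : ℝ | Int.fract (2 ^ j * u) < 1 / 64}) := rfl
    rw [e]
    refine MeasurableSet.inter (measurableSet_lt measurable_const measurable_id)
      (MeasurableSet.inter (measurableSet_lt measurable_id measurable_const) ?_)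
    exact measurableSet_lt (measurable_fract.comp (measurable_const.mul measurable_id))
      measurable_const
  have h3 : MeasurableSet {y : EuclideanSpace ℝ (Fin (k+2)) | good j (y 1 / y 0)} := hq hg
  have h4 : MeasurableSet (⋂ i : Fin (k+2), {y : EuclideanSpace ℝ (Fin (k+2)) | |y i| ≤ - y 0}) :=
    MeasurableSet.iInter fun i => measurableSet_le (by fun_prop) (by fun_prop)
  have : G k j = {y | (8:ℝ) * 2 ^ j ≤ - y 0} ∩ ({y | - y 0 < (16:ℝ) * 2 ^ j} ∩
      ({y | good j (y 1 / y 0)} ∩ ⋂ i : Fin (k+2), {y | |y i| ≤ - y 0})) := by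
    ext y
    simp [G]
  rw [this]
  exact h1.inter (h2.inter (h3.inter h4))

/-- scaled shear -/
def shear (k : ℕ) (R t : ℝ) : EuclideanSpace ℝ (Fin (k+2)) →ₗ[ℝ] EuclideanSpace ℝ (Fin (k+2)) :=
  R • LinearMap.transvection
    ((EuclideanSpace.proj (0 : Fin (k+2)) : EuclideanSpace ℝ (Fin (k+2)) →L[ℝ] ℝ) :
      Module.Dual ℝ (EuclideanSpace ℝ (Fin (k+2))))
    (t • EuclideanSpace.single (1 : Fin (k+2)) (1:ℝ))

lemma shear_det (k : ℕ) (R t : ℝ) : LinearMap.det (shear k R t) = R ^ (k+2) := by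
  unfold shear
  rw [LinearMap.det_smul, LinearMap.transvection.det]
  simp

lemma shear_apply (k : ℕ) (R t : ℝ) (y : EuclideanSpace ℝ (Fin (k+2))) (i : Fin (k+2)) :
    (shear k R t y) i = R * (y i + y 0 * (t * if i = 1 then 1 else 0)) := by
  unfold shear
  simp only [LinearMap.smul_apply, LinearMap.transvection.apply, PiLp.smul_apply, PiLp.add_apply,
    smul_eq_mul, PiLp.single_apply]
  rfl

def p0 (k : ℕ) : EuclideanSpace ℝ (Fin (k+2)) :=
  WithLp.toLp 2 (fun i => if i = 0 then -(3/2 : ℝ) else if i = 1 then -(1/2) else 0)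

lemma cover {k j : ℕ} (hj : 20 ≤ j) : ball (p0 k) (1/4) ⊆
    ⋃ q ∈ Finset.range (nn j) ×ˢ Finset.range 64,
      (shear k (8 * 2 ^ j) (tau j q.1 q.2)) ⁻¹' (G k j) := by
  intro y hy
  rw [mem_ball, dist_eq_norm] at hy
  have hc : ∀ i, |y i - p0 k i| < 1/4 := by
    intro i
    have := coord_le (y - p0 k) i
    simp only [PiLp.sub_apply] at this
    exact this.trans_lt hy
  have c0 := hc 0
  have c1 := hc 1
  have e10 : (1 : Fin (k+2)) ≠ 0 := by simp
  simp only [p0, e10, if_true, if_false] at c0 c1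
  rw [abs_lt] at c0 c1
  have hy0 : y 0 < 0 := by linarith
  have hv0 : 0 < y 1 / y 0 := div_pos_of_neg_of_neg (by linarith) hy0
  have hv1 : y 1 / y 0 < 1 := by
    rw [div_lt_one_of_neg hy0]; linarith
  obtain ⟨q, hq, hg⟩ := exists_shift hj hv0 hv1
  simp only [mem_iUnion]
  refine ⟨q, hq, ?_⟩
  have hR : (0:ℝ) < 8 * 2 ^ j := by positivity
  show shear k (8 * 2 ^ j) (tau j q.1 q.2) y ∈ G k j
  have a0 : (shear k (8 * 2 ^ j) (tau j q.1 q.2) y) 0 = 8 * 2 ^ j * y 0 := by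
    rw [shear_apply]; simp
  have a1 : (shear k (8 * 2 ^ j) (tau j q.1 q.2) y) 1 = 8 * 2 ^ j * (y 1 + y 0 * tau j q.1 q.2) := by
    rw [shear_apply]; simp
  have asl : (8 * 2 ^ j * (y 1 + y 0 * tau j q.1 q.2)) / (8 * 2 ^ j * y 0) = y 1 / y 0 + tau j q.1 q.2 := by
    rw [mul_div_mul_left _ _ hR.ne', add_div, mul_div_cancel_left₀ _ hy0.ne]
  refine ⟨?_, ?_, ?_, ?_⟩
  · rw [a0]; nlinarith
  · rw [a0]; nlinarith
  · rw [a0, a1, asl]; exact hg
  · intro i
    rw [a0]
    by_cases hi : i = 1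
    · subst hi
      rw [a1]
      have hb := good_bound hj hg
      have : y 1 + y 0 * tau j q.1 q.2 = (y 1 / y 0 + tau j q.1 q.2) * y 0 := by
        rw [add_mul, div_mul_cancel₀ _ hy0.ne]; ring
      rw [this, abs_mul, abs_of_pos hR, abs_mul, abs_of_pos hb.1, abs_of_neg hy0]
      have : (y 1 / y 0 + tau j q.1 q.2) * (-y 0) ≤ 1 * (-y 0) :=
        mul_le_mul_of_nonneg_right (by linarith) (by linarith)
      nlinarith
    · rw [shear_apply]
      simp only [hi, if_false, mul_zero, add_zero]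
      rw [abs_mul, abs_of_pos hR]
      have : |y i| ≤ - y 0 := by
        by_cases hi0 : i = 0
        · subst hi0; rw [abs_of_neg hy0]
        · have := hc i
          simp only [p0, hi, hi0, if_false, sub_zero] at this
          linarith
      nlinarith

lemma vol_lower {k j : ℕ} (hj : 20 ≤ j) :
    volume (ball (p0 k) (1/4)) ≤
      ((nn j * 64 : ℕ) : ℝ≥0∞) *
        (ENNReal.ofReal (((8 * 2 ^ j : ℝ) ^ (k+2))⁻¹) * volume (G k j)) := by
  refine (measure_mono (cover hj)).trans ?_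
  refine (measure_biUnion_finset_le _ _).trans ?_
  have hR : (0:ℝ) < 8 * 2 ^ j := by positivity
  have : ∀ q ∈ Finset.range (nn j) ×ˢ Finset.range 64,
      volume ((shear k (8 * 2 ^ j) (tau j q.1 q.2)) ⁻¹' (G k j)) =
        ENNReal.ofReal (((8 * 2 ^ j : ℝ) ^ (k+2))⁻¹) * volume (G k j) := by
    intro q _
    have hdet : LinearMap.det (shear k (8 * 2 ^ j) (tau j q.1 q.2)) ≠ 0 := by
      rw [shear_det]; positivity
    rw [Measure.addHaar_preimage_linearMap volume hdet, shear_det, abs_of_pos (by positivity)]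
  rw [Finset.sum_congr rfl this, Finset.sum_const, Finset.card_product, Finset.card_range,
    Finset.card_range, nsmul_eq_mul]

lemma G_norm_lower {k j : ℕ} {y : EuclideanSpace ℝ (Fin (k+2))} (hy : y ∈ G k j) :
    8 * 2 ^ j ≤ ‖y‖ := by
  have h := coord_le y 0
  have h2 := neg_le_abs (y 0)
  have h1 := hy.1
  linarith

lemma norm_le_sum {k : ℕ} (y : EuclideanSpace ℝ (Fin (k+2))) {M : ℝ} (hM : ∀ i, |y i| ≤ M) :
    ‖y‖ ≤ (k+2) * M := by
  have hM0 : 0 ≤ M := (abs_nonneg _).trans (hM 0)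
  rw [EuclideanSpace.norm_eq]
  apply Real.sqrt_le_iff.mpr
  refine ⟨by positivity, ?_⟩
  have : ∑ i : Fin (k+2), ‖y i‖ ^ 2 ≤ ∑ i : Fin (k+2), M ^ 2 := by
    apply Finset.sum_le_sum
    intro i _
    rw [Real.norm_eq_abs]
    exact pow_le_pow_left₀ (abs_nonneg _) (hM i) 2
  refine this.trans ?_
  simp only [Finset.sum_const, Finset.card_univ, Fintype.card_fin, nsmul_eq_mul]
  push_cast
  have : (1:ℝ) ≤ k + 2 := by
    have : (0:ℝ) ≤ k := by positivity
    linarith
  rw [mul_pow]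
  have h3 : ((k:ℝ)+2) ≤ ((k:ℝ)+2)^2 := by nlinarith
  exact mul_le_mul_of_nonneg_right h3 (by positivity)

lemma G_norm_upper {k j : ℕ} {y : EuclideanSpace ℝ (Fin (k+2))} (hy : y ∈ G k j) :
    ‖y‖ ≤ (k+2) * (16 * 2 ^ j) := by
  apply norm_le_sum
  intro i
  have h1 := hy.2.2.2 i
  have h2 := hy.2.1
  linarith

lemma G_fin (k j : ℕ) : volume (G k j) ≠ ⊤ := by
  have : G k j ⊆ closedBall 0 ((k+2) * (16 * 2 ^ j)) := by
    intro y hy
    rw [mem_closedBall, dist_zero_right]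
    exact G_norm_upper hy
  exact ((measure_mono this).trans_lt measure_closedBall_lt_top).ne

/-- kernel -/
def Kd (k : ℕ) (z : EuclideanSpace ℝ (Fin (k+2))) : ℝ := Om (‖z‖⁻¹ • z) / ‖z‖ ^ (k+2)

lemma two_pow_ge {j : ℕ} (hj : 20 ≤ j) : (1024:ℝ) ≤ 2^j := by
  calc (1024:ℝ) = 2^10 := by norm_num
    _ ≤ 2^j := pow_le_pow_right₀ (by norm_num) (by omega)

lemma dist_lower {k j : ℕ} (hj : 20 ≤ j) {x y : EuclideanSpace ℝ (Fin (k+2))} (hx : ‖x‖ < 1)
    (hy : y ∈ G k j) : 1 ≤ ‖x - y‖ := by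
  have h1 := G_norm_lower hy
  have h2 := two_pow_ge hj
  have h3 := norm_sub_norm_le y x
  rw [norm_sub_rev] at h3
  linarith

lemma dist_upper {k j : ℕ} (hj : 20 ≤ j) {x y : EuclideanSpace ℝ (Fin (k+2))} (hx : ‖x‖ < 1)
    (hy : y ∈ G k j) : ‖x - y‖ ≤ 3 * (k+2) * (8 * 2 ^ j) := by
  have h1 := G_norm_upper hy
  have h2 := two_pow_ge hj
  have h3 := norm_sub_le x y
  have h4 : (0:ℝ) ≤ k := by positivity
  nlinarith

lemma Kd_eq {k : ℕ} {z : EuclideanSpace ℝ (Fin (k+2))} (hz : 1 ≤ ‖z‖) :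
    Kd k z = Om z / ‖z‖ ^ (k+2) := by
  unfold Kd
  rw [Om_smul z (by positivity)]

lemma Kd_meas (k : ℕ) : Measurable (Kd k) := by
  unfold Kd
  refine Measurable.div (Om_meas.comp ?_) (by fun_prop)
  fun_prop

lemma Kd_bound {k : ℕ} {z : EuclideanSpace ℝ (Fin (k+2))} (hz : 1 ≤ ‖z‖) : |Kd k z| ≤ 1 := by
  unfold Kd
  rw [abs_div, abs_of_pos (by positivity : 0 < ‖z‖ ^ (k+2))]
  rw [div_le_one (by positivity)]
  exact (Om_abs _).trans (one_le_pow₀ hz)

lemma Kd_intOn {k j : ℕ} (hj : 20 ≤ j) {x : EuclideanSpace ℝ (Fin (k+2))} (hx : ‖x‖ < 1) :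
    IntegrableOn (fun y => Kd k (x - y)) (G k j) := by
  refine Measure.integrableOn_of_bounded (M := 1) (G_fin k j) ?_ ?_
  · exact ((Kd_meas k).comp (measurable_const.sub measurable_id)).aestronglyMeasurable
  · rw [ae_restrict_iff' (G_meas k j)]
    refine Eventually.of_forall fun y hy => ?_
    exact Kd_bound (dist_lower hj hx hy)

/-- relative mass of the j-th region -/
def mass (k j : ℕ) : ℝ := (volume (G k j)).toReal / (8 * 2 ^ j) ^ (k+2)

def Dc (k : ℕ) : ℝ := ((3 * ((k:ℝ)+2)) ^ (k+2))⁻¹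

lemma I_pos {k j : ℕ} (hj : 20 ≤ j) {x : EuclideanSpace ℝ (Fin (k+2))} (hx : ‖x‖ < 1)
    (h : 1 / 2 < x 1) : Dc k * mass k j ≤ ∫ y in G k j, Kd k (x - y) := by
  have h1 : ∫ y in G k j, ((3 * ((k:ℝ)+2) * (8 * 2 ^ j)) ^ (k+2))⁻¹ ≤ ∫ y in G k j, Kd k (x - y) := by
    refine setIntegral_mono_on ?_ (Kd_intOn hj hx) (G_meas k j) ?_
    · exact integrableOn_const (G_fin k j)
    · intro y hy
      rw [Kd_eq (dist_lower hj hx hy), om_pos hj hx hy h, one_div]
      have := dist_lower hj hx hy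
      apply inv_anti₀ (by positivity)
      exact pow_le_pow_left₀ (norm_nonneg _) (dist_upper hj hx hy) _
  refine le_trans (le_of_eq ?_) h1
  rw [setIntegral_const, smul_eq_mul, Measure.real, Dc, mass, mul_pow (3 * ((k:ℝ)+2)), mul_inv]
  ring

lemma I_neg {k j : ℕ} (hj : 20 ≤ j) {x : EuclideanSpace ℝ (Fin (k+2))} (hx : ‖x‖ < 1)
    (h : x 1 < -(1 / 2)) : ∫ y in G k j, Kd k (x - y) ≤ - (Dc k * mass k j) := by
  have h1 : ∫ y in G k j, Kd k (x - y) ≤ ∫ y in G k j, - ((3 * ((k:ℝ)+2) * (8 * 2 ^ j)) ^ (k+2))⁻¹ := by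
    refine setIntegral_mono_on (Kd_intOn hj hx) ?_ (G_meas k j) ?_
    · exact integrableOn_const (G_fin k j)
    · intro y hy
      rw [Kd_eq (dist_lower hj hx hy), om_neg hj hx hy h, neg_div, one_div]
      have := dist_lower hj hx hy
      apply neg_le_neg
      apply inv_anti₀ (by positivity)
      exact pow_le_pow_left₀ (norm_nonneg _) (dist_upper hj hx hy) _
  refine le_trans h1 (le_of_eq ?_)
  rw [setIntegral_const, smul_eq_mul, Measure.real, Dc, mass, mul_pow (3 * ((k:ℝ)+2)), mul_inv]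
  ring

/-- test function -/
def ff (k N : ℕ) (A : ℕ → ℝ) (y : EuclideanSpace ℝ (Fin (k+2))) : ℝ :=
  ∑ j ∈ Finset.Ico 20 N, (G k j).indicator (fun _ => A j) y

lemma ff_zero {k N : ℕ} {A : ℕ → ℝ} {y : EuclideanSpace ℝ (Fin (k+2))} (hy : ‖y‖ < 2) :
    ff k N A y = 0 := by
  unfold ff
  apply Finset.sum_eq_zero
  intro j hj
  apply indicator_of_notMem
  intro h
  have h1 := G_norm_lower h
  have h2 := two_pow_ge (Finset.mem_Ico.mp hj).1
  linarith

lemma ff_int {k N : ℕ} {A : ℕ → ℝ} {x : EuclideanSpace ℝ (Fin (k+2))} (hx : ‖x‖ < 1) :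
    ∫ y, Kd k (x - y) * ff k N A y = ∑ j ∈ Finset.Ico 20 N, A j * ∫ y in G k j, Kd k (x - y) := by
  unfold ff
  simp only [Finset.mul_sum]
  have e : ∀ j, (fun y => Kd k (x - y) * (G k j).indicator (fun _ => A j) y) =
      (G k j).indicator (fun y => A j * Kd k (x - y)) := by
    intro j
    ext y
    by_cases h : y ∈ G k j
    · simp [h, mul_comm]
    · simp [h]
  rw [integral_finsetSum]
  · apply Finset.sum_congr rfl
    intro j hj
    rw [e j, integral_indicator (G_meas k j), integral_const_mul]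
  · intro j hj
    rw [e j, integrable_indicator_iff (G_meas k j)]
    exact (Kd_intOn (Finset.mem_Ico.mp hj).1 hx).const_mul _

lemma farPart_eq {k N : ℕ} {A : ℕ → ℝ} {x : EuclideanSpace ℝ (Fin (k+2))} (hx : ‖x‖ < 1) :
    farPart Om (ff k N A) 0 1 x = ∑ j ∈ Finset.Ico 20 N, A j * ∫ y in G k j, Kd k (x - y) := by
  have hind : (ball (0 : EuclideanSpace ℝ (Fin (k+2))) (2 * 1))ᶜ.indicator (ff k N A) = ff k N A := by
    ext y
    by_cases h : y ∈ ball (0 : EuclideanSpace ℝ (Fin (k+2))) (2 * 1)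
    · have h2 : ‖y‖ < 2 := by simpa using h
      rw [ff_zero h2, indicator_of_notMem]
      simpa using h
    · rw [indicator_of_mem]
      simpa using h
  unfold farPart
  rw [hind, ← ff_int hx]
  unfold roughSI
  apply Tendsto.limUnder_eq
  refine Tendsto.congr' ?_ tendsto_const_nhds
  have : ∀ᶠ ε in 𝓝[>] (0:ℝ), ε < 1 := by
    refine eventually_nhdsWithin_of_eventually_nhds ?_
    exact eventually_lt_nhds one_pos
  filter_upwards [this] with ε hε
  unfold truncRough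
  rw [setIntegral_eq_integral_of_forall_compl_eq_zero]
  · rw [← integral_sub_left_eq_self (fun y => Kd k (x - y) * ff k N A y) volume x]
    congr 1
    ext y
    simp [Kd]
  · intro y hy
    simp only [mem_ofPred_eq, not_lt] at hy
    rw [ff_zero, mul_zero]
    calc ‖x - y‖ ≤ ‖x‖ + ‖y‖ := norm_sub_le x y
      _ < 2 := by linarith

def Lsum (k N : ℕ) (A : ℕ → ℝ) : ℝ := ∑ j ∈ Finset.Ico 20 N, A j * (Dc k * mass k j)

lemma far_pos {k N : ℕ} {A : ℕ → ℝ} (hA : ∀ j, 0 ≤ A j) {x : EuclideanSpace ℝ (Fin (k+2))}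
    (hx : ‖x‖ < 1) (h : 1 / 2 < x 1) : Lsum k N A ≤ farPart Om (ff k N A) 0 1 x := by
  rw [farPart_eq hx]
  apply Finset.sum_le_sum
  intro j hj
  exact mul_le_mul_of_nonneg_left (I_pos (Finset.mem_Ico.mp hj).1 hx h) (hA j)

lemma far_neg {k N : ℕ} {A : ℕ → ℝ} (hA : ∀ j, 0 ≤ A j) {x : EuclideanSpace ℝ (Fin (k+2))}
    (hx : ‖x‖ < 1) (h : x 1 < -(1 / 2)) : farPart Om (ff k N A) 0 1 x ≤ - Lsum k N A := by
  rw [farPart_eq hx, Lsum, ← Finset.sum_neg_distrib]
  apply Finset.sum_le_sum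
  intro j hj
  rw [← mul_neg]
  exact mul_le_mul_of_nonneg_left (I_neg (Finset.mem_Ico.mp hj).1 hx h) (hA j)

def Sp (k : ℕ) : Set (EuclideanSpace ℝ (Fin (k+2))) := ball 0 1 ∩ {x | 1 / 2 < x 1}
def Sm (k : ℕ) : Set (EuclideanSpace ℝ (Fin (k+2))) := ball 0 1 ∩ {x | x 1 < -(1 / 2)}

lemma Sp_open (k : ℕ) : IsOpen (Sp k) := by
  refine isOpen_ball.inter ?_
  exact isOpen_lt continuous_const (by fun_prop)

lemma Sm_open (k : ℕ) : IsOpen (Sm k) := by
  refine isOpen_ball.inter ?_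
  exact isOpen_lt (by fun_prop) continuous_const

lemma Sp_pos (k : ℕ) : 0 < volume (Sp k) := by
  refine (Sp_open k).measure_pos volume ⟨EuclideanSpace.single (1 : Fin (k+2)) (3/4 : ℝ), ?_, ?_⟩
  · rw [mem_ball, dist_zero_right, PiLp.norm_single, Real.norm_eq_abs, abs_of_pos] <;> norm_num
  · simp only [mem_ofPred_eq, PiLp.single_apply, if_true]; norm_num

lemma Sm_pos (k : ℕ) : 0 < volume (Sm k) := by
  refine (Sm_open k).measure_pos volume ⟨EuclideanSpace.single (1 : Fin (k+2)) (-(3/4) : ℝ), ?_, ?_⟩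
  · rw [mem_ball, dist_zero_right, PiLp.norm_single, Real.norm_eq_abs, abs_neg, abs_of_pos] <;> norm_num
  · simp only [mem_ofPred_eq, PiLp.single_apply, if_true]; norm_num

def kap (k : ℕ) : ℝ≥0∞ :=
  ((volume (ball (0 : EuclideanSpace ℝ (Fin (k+2))) 1))⁻¹ ^ 2 * (volume (Sm k) * volume (Sp k))) ^ (1 / 2 : ℝ)

lemma kap_ne_zero (k : ℕ) : kap k ≠ 0 := by
  unfold kap
  have h1 : (volume (ball (0 : EuclideanSpace ℝ (Fin (k+2))) 1))⁻¹ ≠ 0 :=
    ENNReal.inv_ne_zero.mpr measure_ball_lt_top.ne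
  intro h
  rw [ENNReal.rpow_eq_zero_iff] at h
  rcases h with ⟨h, -⟩ | ⟨-, h⟩
  · rw [mul_eq_zero, mul_eq_zero] at h
    rcases h with h | h | h
    · exact h1 (pow_eq_zero_iff (two_ne_zero) |>.mp h)
    · exact (Sm_pos k).ne' h
    · exact (Sp_pos k).ne' h
  · norm_num at h

lemma kap_ne_top (k : ℕ) : kap k ≠ ⊤ := by
  unfold kap
  have h1 : (volume (ball (0 : EuclideanSpace ℝ (Fin (k+2))) 1))⁻¹ ≠ ⊤ :=
    ENNReal.inv_ne_top.mpr (measure_ball_pos _ _ one_pos).ne'
  have h2 : volume (Sm k) ≠ ⊤ :=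
    ((measure_mono inter_subset_left).trans_lt measure_ball_lt_top).ne
  have h3 : volume (Sp k) ≠ ⊤ :=
    ((measure_mono inter_subset_left).trans_lt measure_ball_lt_top).ne
  apply ENNReal.rpow_ne_top_of_nonneg (by norm_num)
  exact ENNReal.mul_ne_top (ENNReal.pow_ne_top h1) (ENNReal.mul_ne_top h2 h3)

lemma osc_lower {k N : ℕ} {A : ℕ → ℝ} (hA : ∀ j, 0 ≤ A j) :
    kap k * ENNReal.ofReal (2 * Lsum k N A) ≤ oscFar Om (ff k N A) 0 1 := by
  unfold oscFar kap
  set g := farPart Om (ff k N A) 0 1 with hg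
  set c : ℝ≥0∞ := ENNReal.ofReal (2 * Lsum k N A) with hc
  have hpt : ∀ x ∈ Sp k, ∀ y ∈ Sm k, c ^ 2 ≤ ‖g x - g y‖ₑ ^ 2 := by
    intro x hx y hy
    have hx1 : ‖x‖ < 1 := by simpa using hx.1
    have hy1 : ‖y‖ < 1 := by simpa using hy.1
    have a1 := far_pos (N := N) hA hx1 hx.2
    have a2 := far_neg (N := N) hA hy1 hy.2
    have : 2 * Lsum k N A ≤ |g x - g y| := by
      refine le_trans ?_ (le_abs_self _)
      rw [hg]; linarith
    apply pow_le_pow_left'
    rw [hc, ← ofReal_norm]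
    exact ENNReal.ofReal_le_ofReal this
  have hint : c ^ 2 * (volume (Sm k) * volume (Sp k)) ≤
      ∫⁻ x in ball (0 : EuclideanSpace ℝ (Fin (k+2))) 1,
        ∫⁻ y in ball (0 : EuclideanSpace ℝ (Fin (k+2))) 1, ‖g x - g y‖ₑ ^ 2 := by
    calc c ^ 2 * (volume (Sm k) * volume (Sp k)) = ∫⁻ x in Sp k, (c ^ 2 * volume (Sm k)) := by
          rw [setLIntegral_const, mul_assoc]
      _ ≤ ∫⁻ x in Sp k, ∫⁻ y in ball (0 : EuclideanSpace ℝ (Fin (k+2))) 1, ‖g x - g y‖ₑ ^ 2 := by
          apply setLIntegral_mono' (Sp_open k).measurableSet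
          intro x hx
          calc c ^ 2 * volume (Sm k) = ∫⁻ y in Sm k, c ^ 2 := by rw [setLIntegral_const]
            _ ≤ ∫⁻ y in Sm k, ‖g x - g y‖ₑ ^ 2 := by
                apply setLIntegral_mono' (Sm_open k).measurableSet
                intro y hy
                exact hpt x hx y hy
            _ ≤ _ := lintegral_mono_set inter_subset_left
      _ ≤ _ := lintegral_mono_set inter_subset_left
  have e : kap k * c = ((volume (ball (0 : EuclideanSpace ℝ (Fin (k+2))) 1))⁻¹ ^ 2 *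
      (c ^ 2 * (volume (Sm k) * volume (Sp k)))) ^ (1 / 2 : ℝ) := by
    unfold kap
    have : c = (c ^ 2) ^ (1/2 : ℝ) := by
      rw [← ENNReal.rpow_natCast, ← ENNReal.rpow_mul]
      norm_num
    conv_lhs => rw [this]
    rw [← ENNReal.mul_rpow_of_nonneg _ _ (by norm_num)]
    congr 1
    ring
  unfold kap at e
  rw [e]
  apply ENNReal.rpow_le_rpow _ (by norm_num)
  gcongr

lemma mass_lower {k j : ℕ} (hj : 20 ≤ j) :
    (volume (ball (p0 k) (1/4))).toReal / 192 /
      (((j:ℝ) + 1) * (10 + Real.log ((j : ℝ) + 1)) ^ 2) ≤ mass k j := by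
  have h := vol_lower (k := k) hj
  have hfin : ((nn j * 64 : ℕ) : ℝ≥0∞) *
        (ENNReal.ofReal (((8 * 2 ^ j : ℝ) ^ (k+2))⁻¹) * volume (G k j)) ≠ ⊤ :=
    ENNReal.mul_ne_top (ENNReal.natCast_ne_top _) (ENNReal.mul_ne_top ENNReal.ofReal_ne_top (G_fin k j))
  have h2 := ENNReal.toReal_mono hfin h
  rw [ENNReal.toReal_mul, ENNReal.toReal_mul, ENNReal.toReal_natCast,
    ENNReal.toReal_ofReal (by positivity)] at h2
  have hj' : (20:ℝ) ≤ j := by exact_mod_cast hj
  have hm : 0 ≤ mass k j := by unfold mass; positivity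
  have e : ((8 * 2 ^ j : ℝ) ^ (k+2))⁻¹ * (volume (G k j)).toReal = mass k j := by
    unfold mass; ring
  rw [e] at h2
  have hl1 := log_nn j
  set K : ℝ := ((j : ℝ) + 1) * (10 + Real.log ((j : ℝ) + 1)) ^ 2 with hK
  have hK1 : 1 ≤ K := by
    have h10 : (1:ℝ) ≤ (10 + Real.log ((j : ℝ) + 1)) ^ 2 := one_le_pow₀ (by linarith)
    rw [hK]
    nlinarith
  have hn : (nn j : ℝ) ≤ 3 * K := by
    have := (Nat.ceil_lt_add_one (show 0 ≤ 2 * ((j : ℝ) + 1) * (10 + Real.log ((j : ℝ) + 1)) ^ 2 by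
      positivity)).le
    refine this.trans ?_
    have e2 : 2 * ((j : ℝ) + 1) * (10 + Real.log ((j : ℝ) + 1)) ^ 2 = 2 * K := by rw [hK]; ring
    rw [e2]
    linarith
  rw [div_div, div_le_iff₀ (by positivity)]
  refine h2.trans ?_
  push_cast
  calc (nn j : ℝ) * 64 * mass k j ≤ (3 * K) * 64 * mass k j := by gcongr
    _ = mass k j * (192 * K) := by ring

def beta (k : ℕ) : ℝ := min 1 ((volume (ball (p0 k) (1/4))).toReal / 192)

lemma beta_pos (k : ℕ) : 0 < beta k := by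
  unfold beta
  apply lt_min one_pos
  have : 0 < (volume (ball (p0 k) (1/4))).toReal :=
    ENNReal.toReal_pos (measure_ball_pos _ _ (by norm_num)).ne' measure_ball_lt_top.ne
  positivity

/-- The lower bound for the masses. -/
def Kj (j : ℕ) : ℝ := ((j:ℝ) + 1) * (10 + Real.log ((j : ℝ) + 1)) ^ 2

lemma Kj_pos (j : ℕ) : 0 < Kj j := by
  have := log_nn j
  unfold Kj; positivity

lemma mass_ge {k j : ℕ} (hj : 20 ≤ j) : beta k / Kj j ≤ mass k j := by
  refine le_trans ?_ (mass_lower hj)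
  exact div_le_div_of_nonneg_right (min_le_right _ _) (Kj_pos j).le

lemma mass_pos {k j : ℕ} (hj : 20 ≤ j) : 0 < mass k j := by
  refine lt_of_lt_of_le ?_ (mass_ge hj)
  exact div_pos (beta_pos k) (Kj_pos j)

/-- amplitudes -/
def amp (k : ℕ) (r : ℝ) (j : ℕ) : ℝ := mass k j ^ (-(1 / r))

lemma amp_nonneg (k : ℕ) (r : ℝ) (j : ℕ) : 0 ≤ amp k r j := by
  unfold amp mass; positivity

/-- For every finite exponent the terms `amp * mass` are eventually at least `1 / (j + 1)`. -/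
lemma amp_mass (k : ℕ) {r : ℝ} (hr1 : 1 ≤ r) :
    ∀ᶠ j : ℕ in atTop, 1 / ((j : ℝ) + 1) ≤ amp k r j * mass k j := by
  have hb := beta_pos k
  have hr0 : 0 < r := by linarith
  set e : ℝ := 1 - 1 / r with he
  have h1r : 0 < 1 / r := by positivity
  have he0 : 0 ≤ e := by
    rw [he, sub_nonneg, div_le_one hr0]; exact hr1
  -- the logarithm is negligible
  have hlim : Tendsto (fun x : ℝ => (10 + Real.log x) ^ (2 * e) / x ^ (1 / r)) atTop (𝓝 0) := by
    have h1 : (fun x : ℝ => 10 + Real.log x) =O[atTop] Real.log := by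
      refine Asymptotics.IsBigO.add ?_ (Asymptotics.isBigO_refl _ _)
      exact (Asymptotics.isLittleO_const_left.2 (Or.inr (by
        exact tendsto_abs_atTop_atTop.comp Real.tendsto_log_atTop))).isBigO
    have h2 : (fun x : ℝ => (10 + Real.log x) ^ (2 * e)) =O[atTop]
        fun x => Real.log x ^ (2 * e) := by
      refine h1.rpow (by positivity) ?_
      filter_upwards [eventually_ge_atTop (1:ℝ)] with x hx using Real.log_nonneg hx
    have h3 := h2.trans_isLittleO (isLittleO_log_rpow_rpow_atTop (2 * e) h1r)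
    exact h3.tendsto_div_nhds_zero
  have hev := (hlim.comp ((tendsto_natCast_atTop_atTop (R := ℝ)).comp (tendsto_add_atTop_nat 1))).eventually
    (gt_mem_nhds (show (0:ℝ) < beta k ^ e by positivity))
  filter_upwards [hev, eventually_ge_atTop 20] with j hj hj20
  have hm := mass_pos (k := k) hj20
  have hK := Kj_pos j
  have hl1 := log_nn j
  have e1 : amp k r j * mass k j = mass k j ^ e := by
    unfold amp
    conv_lhs => rw [← Real.rpow_one (mass k j)]
    rw [← Real.rpow_mul hm.le, ← Real.rpow_add hm]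
    congr 1; rw [he]; ring
  rw [e1]
  have hj1 : (0:ℝ) < (j:ℝ) + 1 := by positivity
  simp only [Function.comp_apply, Nat.cast_add, Nat.cast_one] at hj
  rw [div_lt_iff₀ (by positivity)] at hj
  refine le_trans ?_ (Real.rpow_le_rpow (by positivity) (mass_ge hj20) he0)
  rw [Real.div_rpow hb.le hK.le]
  unfold Kj
  rw [Real.mul_rpow hj1.le (by positivity), ← Real.rpow_natCast (10 + Real.log ((j:ℝ) + 1)) 2,
    ← Real.rpow_mul (by positivity)]
  rw [div_le_div_iff₀ hj1 (by positivity), one_mul]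
  have e3 : (j:ℝ) + 1 = ((j:ℝ) + 1) ^ e * ((j:ℝ) + 1) ^ (1 / r) := by
    rw [← Real.rpow_add hj1, he, sub_add_cancel, Real.rpow_one]
  calc ((j:ℝ) + 1) ^ e * (10 + Real.log ((j:ℝ) + 1)) ^ (((2 : ℕ) : ℝ) * e)
      ≤ ((j:ℝ) + 1) ^ e * (beta k ^ e * ((j:ℝ) + 1) ^ (1 / r)) := by
        apply mul_le_mul_of_nonneg_left _ (by positivity)
        push_cast
        exact hj.le
    _ = beta k ^ e * (((j:ℝ) + 1) ^ e * ((j:ℝ) + 1) ^ (1 / r)) := by ring
    _ = beta k ^ e * ((j:ℝ) + 1) := by rw [← e3]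

lemma Dc_pos (k : ℕ) : 0 < Dc k := by unfold Dc; positivity

lemma Lsum_tendsto (k : ℕ) {r : ℝ} (hr1 : 1 ≤ r) :
    Tendsto (fun N => Lsum k N (amp k r)) atTop atTop := by
  obtain ⟨J, hJ⟩ := eventually_atTop.1 (amp_mass k hr1)
  set J' := max J 20 with hJ'
  have hD := Dc_pos k
  have h1 : Tendsto (fun N : ℕ => ∑ j ∈ Finset.range N, 1 / ((j:ℝ) + 1)) atTop atTop :=
    Real.tendsto_sum_range_one_div_nat_succ_atTop
  have h2 : Tendsto (fun N : ℕ => Dc k * (∑ j ∈ Finset.range N, 1 / ((j:ℝ) + 1) -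
      ∑ j ∈ Finset.range J', 1 / ((j:ℝ) + 1))) atTop atTop :=
    (tendsto_atTop_add_const_right _ _ h1).const_mul_atTop hD
  refine tendsto_atTop_mono' _ ?_ h2
  filter_upwards [eventually_ge_atTop J'] with N hN
  rw [← Finset.sum_Ico_eq_sub _ hN, Finset.mul_sum]
  unfold Lsum
  have hsub : Finset.Ico J' N ⊆ Finset.Ico 20 N := by
    intro j hj
    rw [Finset.mem_Ico] at hj ⊢
    exact ⟨(le_max_right _ _).trans hj.1, hj.2⟩
  refine le_trans (Finset.sum_le_sum fun j hj => ?_) (Finset.sum_le_sum_of_subset_of_nonneg hsub ?_)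
  · have h3 := hJ j ((le_max_left _ _).trans (Finset.mem_Ico.mp hj).1)
    have e : amp k r j * (Dc k * mass k j) = Dc k * (amp k r j * mass k j) := by ring
    rw [e]
    exact mul_le_mul_of_nonneg_left h3 hD.le
  · intro j hj _
    exact mul_nonneg (amp_nonneg k r j)
      (mul_nonneg hD.le (mass_pos (Finset.mem_Ico.mp hj).1).le)

lemma geom_sum_bound {s : ℝ} (hs : 0 ≤ s) (N : ℕ) :
    ∑ j ∈ Finset.range N, (if (8:ℝ) * 2 ^ j ≤ s then (8:ℝ) * 2 ^ j else 0) ≤ 2 * s ∧
    ∑ j ∈ Finset.range N, (if (8:ℝ) * 2 ^ j ≤ s then (8:ℝ) * 2 ^ j else 0) ≤ 8 * 2 ^ N := by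
  induction N with
  | zero => simp; linarith
  | succ n ih =>
    rw [Finset.sum_range_succ]
    have hp : (0:ℝ) < 2 ^ n := by positivity
    split_ifs with h
    · constructor
      · linarith [ih.2]
      · rw [pow_succ]; linarith [ih.2]
    · constructor
      · linarith [ih.1]
      · rw [pow_succ]; linarith [ih.2]

lemma geom_sum_bound' {s : ℝ} (hs : 0 ≤ s) (k N : ℕ) :
    ∑ j ∈ Finset.Ico 20 N, (if (8:ℝ) * 2 ^ j ≤ s then ((8:ℝ) * 2 ^ j) ^ (k+2) else 0) ≤ 2 * s ^ (k+2) := by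
  have h1 : ∑ j ∈ Finset.Ico 20 N, (if (8:ℝ) * 2 ^ j ≤ s then ((8:ℝ) * 2 ^ j) ^ (k+2) else 0) ≤
      ∑ j ∈ Finset.range N, (if (8:ℝ) * 2 ^ j ≤ s then ((8:ℝ) * 2 ^ j) ^ (k+2) else 0) := by
    apply Finset.sum_le_sum_of_subset_of_nonneg
    · intro j hj
      exact Finset.mem_range.mpr (Finset.mem_Ico.mp hj).2
    · intro j _ _
      split_ifs <;> positivity
  have h2 : ∀ j ∈ Finset.range N, (if (8:ℝ) * 2 ^ j ≤ s then ((8:ℝ) * 2 ^ j) ^ (k+2) else 0) ≤
      s ^ (k+1) * (if (8:ℝ) * 2 ^ j ≤ s then (8:ℝ) * 2 ^ j else 0) := by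
    intro j _
    split_ifs with h
    · rw [pow_succ]
      apply mul_le_mul_of_nonneg_right _ (by positivity)
      exact pow_le_pow_left₀ (by positivity) h _
    · simp
  calc _ ≤ _ := h1
    _ ≤ _ := Finset.sum_le_sum h2
    _ = s ^ (k+1) * ∑ j ∈ Finset.range N, (if (8:ℝ) * 2 ^ j ≤ s then (8:ℝ) * 2 ^ j else 0) := by
        rw [Finset.mul_sum]
    _ ≤ s ^ (k+1) * (2 * s) := mul_le_mul_of_nonneg_left (geom_sum_bound hs N).1 (by positivity)
    _ = _ := by ring

lemma G_disj {k i j : ℕ} (hij : i < j) {y : EuclideanSpace ℝ (Fin (k+2))} (hi : y ∈ G k i)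
    (hj : y ∈ G k j) : False := by
  have h1 := hi.2.1
  have h2 := hj.1
  have h3 : (2:ℝ) ^ (i+1) ≤ 2 ^ j := pow_le_pow_right₀ (by norm_num) hij
  rw [pow_succ] at h3
  linarith

lemma ff_pow {k N : ℕ} {r : ℝ} (hr : 0 < r) {A : ℕ → ℝ} (hA : ∀ j, 0 ≤ A j)
    (y : EuclideanSpace ℝ (Fin (k+2))) :
    ‖ff k N A y‖ₑ ^ r ≤ ∑ j ∈ Finset.Ico 20 N, (G k j).indicator (fun _ => ENNReal.ofReal (A j) ^ r) y := by
  by_cases h : ∃ j ∈ Finset.Ico 20 N, y ∈ G k j
  · obtain ⟨j, hj, hy⟩ := h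
    have e : ff k N A y = A j := by
      unfold ff
      rw [Finset.sum_eq_single j]
      · simp [hy]
      · intro i _ hij
        apply indicator_of_notMem
        intro hi
        rcases lt_or_gt_of_ne hij with h | h
        · exact G_disj h hi hy
        · exact G_disj h hy hi
      · intro h; exact absurd hj h
    rw [e]
    refine le_trans ?_ (Finset.single_le_sum (f := fun j => (G k j).indicator
      (fun _ => ENNReal.ofReal (A j) ^ r) y) (fun _ _ => zero_le) hj)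
    simp only [indicator_of_mem hy]
    rw [← ofReal_norm, Real.norm_of_nonneg (hA j)]
  · push Not at h
    have e : ff k N A y = 0 := by
      unfold ff
      apply Finset.sum_eq_zero
      intro j hj
      exact indicator_of_notMem (h j hj) _
    rw [e]
    simp [hr]

lemma maxAvg_upper {k N : ℕ} {r : ℝ} (hr : 1 ≤ r) :
    maxAvg r (ff k N (amp k r)) 0 1 ≤
      max 1 (2 * 2 ^ (k+2) / volume (ball (0 : EuclideanSpace ℝ (Fin (k+2))) 1)) := by
  unfold maxAvg
  refine iSup_le fun z => iSup_le fun t => iSup_le fun hzt => ?_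
  have hr0 : 0 < r := by linarith
  have h0 : (0 : EuclideanSpace ℝ (Fin (k+2))) ∈ ball z t := hzt (mem_ball_self one_pos)
  have ht : 0 < t := pos_of_mem_ball h0
  have hV : volume (ball (0 : EuclideanSpace ℝ (Fin (k+2))) 1) ≠ 0 := (measure_ball_pos _ _ one_pos).ne'
  have hV' : volume (ball (0 : EuclideanSpace ℝ (Fin (k+2))) 1) ≠ ⊤ := measure_ball_lt_top.ne
  have hint : ∫⁻ y in ball z t, ‖ff k N (amp k r) y‖ₑ ^ r ≤ ENNReal.ofReal (2 * (2 * t) ^ (k+2)) := by
    calc ∫⁻ y in ball z t, ‖ff k N (amp k r) y‖ₑ ^ r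
        ≤ ∫⁻ y in ball z t, ∑ j ∈ Finset.Ico 20 N,
            (G k j).indicator (fun _ => ENNReal.ofReal (amp k r j) ^ r) y :=
          lintegral_mono fun y => ff_pow hr0 (amp_nonneg k r) y
      _ = ∑ j ∈ Finset.Ico 20 N, ∫⁻ y in ball z t,
            (G k j).indicator (fun _ => ENNReal.ofReal (amp k r j) ^ r) y := by
          rw [lintegral_finsetSum]
          intro j _
          exact measurable_const.indicator (G_meas k j)
      _ ≤ ∑ j ∈ Finset.Ico 20 N, ENNReal.ofReal (if (8:ℝ) * 2 ^ j ≤ 2 * t then ((8:ℝ) * 2 ^ j) ^ (k+2) else 0) := by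
          apply Finset.sum_le_sum
          intro j hj
          rw [lintegral_indicator (G_meas k j), lintegral_const, Measure.restrict_apply_univ, 
            Measure.restrict_apply (G_meas k j)] 
          by_cases hne : (G k j ∩ ball z t).Nonempty
          · obtain ⟨y, hy1, hy2⟩ := hne
            have hR : (8:ℝ) * 2 ^ j ≤ 2 * t := by
              have h1 := G_norm_lower hy1
              have h2 : dist y 0 < 2 * t := by
                have a1 : dist y z < t := hy2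
                have a2 : dist z 0 < t := by rw [dist_comm]; exact h0
                linarith [dist_triangle y z 0]
              rw [dist_zero_right] at h2
              linarith
            rw [if_pos hR]
            have hm := mass_pos (k := k) (Finset.mem_Ico.mp hj).1
            have e1 : ENNReal.ofReal (amp k r j) ^ r = ENNReal.ofReal ((mass k j)⁻¹) := by
              rw [ENNReal.ofReal_rpow_of_nonneg (amp_nonneg k r j) hr0.le]
              congr 1
              unfold amp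
              rw [← Real.rpow_mul hm.le]
              have : -(1 / r) * r = -1 := by field_simp
              rw [this, Real.rpow_neg_one]
            rw [e1]
            calc ENNReal.ofReal ((mass k j)⁻¹) * volume (G k j ∩ ball z t)
                ≤ ENNReal.ofReal ((mass k j)⁻¹) * volume (G k j) := by
                  gcongr; exact inter_subset_left
              _ = ENNReal.ofReal ((mass k j)⁻¹) * ENNReal.ofReal (volume (G k j)).toReal := by
                  rw [ENNReal.ofReal_toReal (G_fin k j)]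
              _ = ENNReal.ofReal ((mass k j)⁻¹ * (volume (G k j)).toReal) := by
                  rw [ENNReal.ofReal_mul (by positivity)]
              _ = ENNReal.ofReal (((8:ℝ) * 2 ^ j) ^ (k+2)) := by
                  congr 1
                  have hv : (volume (G k j)).toReal ≠ 0 := by
                    intro h
                    unfold mass at hm
                    rw [h] at hm
                    simp at hm
                  unfold mass
                  rw [inv_div, div_mul_cancel₀ _ hv]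
              _ ≤ _ := le_rfl
          · rw [not_nonempty_iff_eq_empty] at hne
            rw [hne, measure_empty, mul_zero]
            exact zero_le
      _ = ENNReal.ofReal (∑ j ∈ Finset.Ico 20 N, (if (8:ℝ) * 2 ^ j ≤ 2 * t then ((8:ℝ) * 2 ^ j) ^ (k+2) else 0)) := by
          rw [ENNReal.ofReal_sum_of_nonneg]
          intro j _
          split_ifs <;> positivity
      _ ≤ _ := ENNReal.ofReal_le_ofReal (geom_sum_bound' (by positivity) k N)
  have hball : volume (ball z t) = ENNReal.ofReal (t ^ (k+2)) * volume (ball (0 : EuclideanSpace ℝ (Fin (k+2))) 1) := by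
    rw [Measure.addHaar_ball volume z ht.le]
    simp
  have hQ : (volume (ball z t))⁻¹ * ∫⁻ y in ball z t, ‖ff k N (amp k r) y‖ₑ ^ r ≤
      2 * 2 ^ (k+2) / volume (ball (0 : EuclideanSpace ℝ (Fin (k+2))) 1) := by
    calc (volume (ball z t))⁻¹ * ∫⁻ y in ball z t, ‖ff k N (amp k r) y‖ₑ ^ r
        ≤ (volume (ball z t))⁻¹ * ENNReal.ofReal (2 * (2 * t) ^ (k+2)) := by gcongr
      _ = (ENNReal.ofReal (t ^ (k+2)) * volume (ball (0 : EuclideanSpace ℝ (Fin (k+2))) 1))⁻¹ *
          ENNReal.ofReal (t ^ (k+2) * (2 * 2 ^ (k+2))) := by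
          rw [hball]
          congr 2
          rw [mul_pow]; ring
      _ = 2 * 2 ^ (k+2) / volume (ball (0 : EuclideanSpace ℝ (Fin (k+2))) 1) := by
          have ht' : ENNReal.ofReal (t ^ (k+2)) ≠ 0 := by
            rw [Ne, ENNReal.ofReal_eq_zero, not_le]; positivity
          have e2 : ENNReal.ofReal (2 * 2 ^ (k+2)) = 2 * 2 ^ (k+2) := by
            rw [ENNReal.ofReal_mul (by norm_num), ENNReal.ofReal_pow (by norm_num)]
            simp
          rw [ENNReal.ofReal_mul (by positivity), e2, ENNReal.mul_inv (Or.inl ht') (Or.inl ENNReal.ofReal_ne_top)]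
          rw [show ∀ a b c d : ℝ≥0∞, a⁻¹ * b * (a * c) = (a⁻¹ * a) * (c * b) from by
            intro a b c d; ring]
          · rw [ENNReal.inv_mul_cancel ht' ENNReal.ofReal_ne_top, one_mul, div_eq_mul_inv]
          · exact 0
  calc ((volume (ball z t))⁻¹ * ∫⁻ y in ball z t, ‖ff k N (amp k r) y‖ₑ ^ r) ^ (1 / r)
      ≤ (max 1 (2 * 2 ^ (k+2) / volume (ball (0 : EuclideanSpace ℝ (Fin (k+2))) 1))) ^ (1 / r) := by
        apply ENNReal.rpow_le_rpow (hQ.trans (le_max_right _ _)) (by positivity)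
    _ ≤ (max 1 (2 * 2 ^ (k+2) / volume (ball (0 : EuclideanSpace ℝ (Fin (k+2))) 1))) ^ (1 : ℝ) := by
        apply ENNReal.rpow_le_rpow_of_exponent_le (le_max_left _ _)
        rw [div_le_one hr0]; exact hr
    _ = _ := ENNReal.rpow_one _

lemma ff_meas (k N : ℕ) (A : ℕ → ℝ) : Measurable (ff k N A) := by
  unfold ff
  apply Finset.measurable_sum
  intro j _
  exact measurable_const.indicator (G_meas k j)

lemma ff_bdd (k N : ℕ) (A : ℕ → ℝ) (y : EuclideanSpace ℝ (Fin (k+2))) :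
    |ff k N A y| ≤ ∑ j ∈ Finset.Ico 20 N, |A j| := by
  unfold ff
  refine (Finset.abs_sum_le_sum_abs _ _).trans ?_
  apply Finset.sum_le_sum
  intro j _
  by_cases h : y ∈ G k j
  · simp [h]
  · simp [h]

lemma ff_supp (k N : ℕ) (A : ℕ → ℝ) : HasCompactSupport (ff k N A) := by
  apply HasCompactSupport.of_support_subset_isCompact
    (isCompact_closedBall (0 : EuclideanSpace ℝ (Fin (k+2))) (((k:ℝ)+2) * (16 * 2 ^ N)))
  intro y hy
  rw [Function.mem_support] at hy
  have : ∃ j ∈ Finset.Ico 20 N, y ∈ G k j := by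
    by_contra h
    push Not at h
    apply hy
    unfold ff
    apply Finset.sum_eq_zero
    intro j hj
    exact indicator_of_notMem (h j hj) _
  obtain ⟨j, hj, hyj⟩ := this
  rw [mem_closedBall, dist_zero_right]
  refine (G_norm_upper hyj).trans ?_
  have : (2:ℝ) ^ j ≤ 2 ^ N := pow_le_pow_right₀ (by norm_num) (Finset.mem_Ico.mp hj).2.le
  gcongr

theorem key_step (k : ℕ) {r : ℝ} (hr1 : 1 ≤ r) (C : ℝ≥0) :
    ∃ f : EuclideanSpace ℝ (Fin (k+2)) → ℝ, Measurable f ∧ (∃ M : ℝ, ∀ y, |f y| ≤ M) ∧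
      HasCompactSupport f ∧ C * maxAvg r f 0 1 < oscFar Om f 0 1 := by
  set Q : ℝ≥0∞ := max 1 (2 * 2 ^ (k+2) / volume (ball (0 : EuclideanSpace ℝ (Fin (k+2))) 1)) with hQ
  have hQtop : Q ≠ ⊤ := by
    rw [hQ]
    simp only [ne_eq, max_eq_top, ENNReal.one_ne_top, false_or]
    apply ENNReal.div_ne_top
    · exact ENNReal.mul_ne_top (by norm_num) (ENNReal.pow_ne_top (by norm_num))
    · exact (measure_ball_pos _ _ one_pos).ne'
  have hM : (C * Q) / kap k ≠ ⊤ :=
    ENNReal.div_ne_top (ENNReal.mul_ne_top ENNReal.coe_ne_top hQtop) (kap_ne_zero k)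
  have hL := Lsum_tendsto k hr1
  obtain ⟨N, hN⟩ := ((tendsto_atTop.mp hL) (((C * Q) / kap k).toReal + 1)).exists
  refine ⟨ff k N (amp k r), ff_meas _ _ _, ⟨_, ff_bdd k N (amp k r)⟩, ff_supp _ _ _, ?_⟩
  calc C * maxAvg r (ff k N (amp k r)) 0 1 ≤ C * Q := by gcongr; exact maxAvg_upper hr1
    _ = kap k * ((C * Q) / kap k) := by
        rw [ENNReal.mul_div_cancel (kap_ne_zero k) (kap_ne_top k)]
    _ < kap k * ENNReal.ofReal (2 * Lsum k N (amp k r)) := by
        apply ENNReal.mul_lt_mul_right (kap_ne_zero k) (kap_ne_top k)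
        rw [ENNReal.lt_ofReal_iff_toReal_lt hM]
        have := ENNReal.toReal_nonneg (a := (C * Q) / kap k)
        linarith
    _ ≤ _ := osc_lower (amp_nonneg k r)

end

/-- For every dimension `d ≥ 2` there is one bounded measurable mean-zero `Ω` on the unit sphere for
which the oscillation inequality fails for every finite exponent `r ≥ 1`, already on the unit
ball. -/
theorem result (d : ℕ) (hd : 2 ≤ d) :
    ∃ Ω : EuclideanSpace ℝ (Fin d) → ℝ, Measurable Ω ∧ (∀ w, |Ω w| ≤ 1) ∧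
      (∫ w : sphere (0 : EuclideanSpace ℝ (Fin d)) 1, Ω w
        ∂(volume : Measure (EuclideanSpace ℝ (Fin d))).toSphere = 0) ∧
      ∀ r : ℝ, 1 ≤ r → ∀ C : ℝ≥0, ∃ f : EuclideanSpace ℝ (Fin d) → ℝ,
        Measurable f ∧ (∃ M : ℝ, ∀ y, |f y| ≤ M) ∧ HasCompactSupport f ∧
          C * maxAvg r f 0 1 < oscFar Ω f 0 1 := by
  obtain ⟨k, rfl⟩ : ∃ k, d = k + 2 := ⟨d - 2, by omega⟩
  exact ⟨Om, Om_meas, Om_abs, Om_mean, fun r hr1 C => key_step k hr1 C⟩

end Pool.Agent.Results.MP_577a3c_an.AllFiniteExponents
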